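import Mathlib

set_option autoImplicit false

namespace Pool.Agent.LatinDet

open Matrix

section general

variable {R : Type*} [CommRing R]

/-- Determinant of a block matrix `[[P, Q], [Q, P]]`. -/
theorem det_blocks {n : Type*} [Fintype n] [DecidableEq n] (P Q : Matrix n n R) :
    (fromBlocks P Q Q P).det = (P + Q).det * (P - Q).det := by
  have h : fromBlocks 1 1 0 1 * fromBlocks P Q Q P * fromBlocks 1 (-1) 0 1
      = fromBlocks (P + Q) 0 Q (P - Q) := by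
    rw [fromBlocks_multiply, fromBlocks_multiply]
    congr 1 <;> simp [sub_eq_add_neg, add_comm]
    abel
  have h2 := congrArg Matrix.det h
  rw [det_mul, det_mul, det_fromBlocks_zero₂₁, det_fromBlocks_zero₂₁, det_fromBlocks_zero₁₂] at h2
  simpa using h2

/-- The upper left block: the matrix of `z ↦ conj a * z`. -/
def mA (a0 a1 a2 a3 : R) : Matrix (Fin 4) (Fin 4) R :=
  !![a0, a1, a2, a3; -a1, a0, a3, -a2; -a2, -a3, a0, a1; -a3, a2, -a1, a0]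

/-- The upper right block: the matrix of `w ↦ w * conj b`. -/
def mB (b0 b1 b2 b3 : R) : Matrix (Fin 4) (Fin 4) R :=
  !![b0, b1, b2, b3; -b1, b0, -b3, b2; -b2, b3, b0, -b1; -b3, -b2, b1, b0]

/-- The lower left block: the matrix of `z ↦ i * z * i * b`. -/
def mC (b0 b1 b2 b3 : R) : Matrix (Fin 4) (Fin 4) R :=
  !![-b0, b1, -b2, -b3; -b1, -b0, b3, -b2; -b2, b3, b0, b1; -b3, -b2, -b1, b0]

/-- The lower right block: the matrix of `w ↦ a * w`. -/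
def mD (a0 a1 a2 a3 : R) : Matrix (Fin 4) (Fin 4) R :=
  !![a0, -a1, -a2, -a3; a1, a0, -a3, a2; a2, a3, a0, -a1; a3, -a2, a1, a0]

/-- The matrix of `w ↦ u * w * v` for imaginary quaternions `u`, `v`. -/
def mX (u1 u2 u3 v1 v2 v3 : R) : Matrix (Fin 4) (Fin 4) R :=
  !![-(u1*v1)-u2*v2-u3*v3, u2*v3-u3*v2, u3*v1-u1*v3, u1*v2-u2*v1;
     u2*v3-u3*v2, -(u1*v1)+u2*v2+u3*v3, -(u1*v2)-u2*v1, -(u1*v3)-u3*v1;
     u3*v1-u1*v3, -(u1*v2)-u2*v1, u1*v1-u2*v2+u3*v3, -(u2*v3)-u3*v2;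
     u1*v2-u2*v1, -(u1*v3)-u3*v1, -(u2*v3)-u3*v2, u1*v1+u2*v2-u3*v3]

theorem det_mA (a0 a1 a2 a3 : R) :
    (mA a0 a1 a2 a3).det = (a0^2+a1^2+a2^2+a3^2)^2 := by
  simp [mA, Matrix.det_succ_row_zero, Fin.sum_univ_succ, Fin.succAbove]
  ring

theorem det_mD (a0 a1 a2 a3 : R) :
    (mD a0 a1 a2 a3).det = (a0^2+a1^2+a2^2+a3^2)^2 := by
  simp [mD, Matrix.det_succ_row_zero, Fin.sum_univ_succ, Fin.succAbove]
  ring

theorem det_smul_sub_mX (t u1 u2 u3 v1 v2 v3 : R) :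
    (t • (1 : Matrix (Fin 4) (Fin 4) R) - mX u1 u2 u3 v1 v2 v3).det =
      (t^2 - (u1^2+u2^2+u3^2) * (v1^2+v2^2+v3^2))^2 := by
  simp [mX, Matrix.det_succ_row_zero, Fin.sum_univ_succ, Fin.succAbove, Matrix.one_apply]
  ring

theorem transpose_mA_mul (a0 a1 a2 a3 : R) :
    (mA a0 a1 a2 a3)ᵀ * mA a0 a1 a2 a3 = (a0^2+a1^2+a2^2+a3^2) • (1 : Matrix (Fin 4) (Fin 4) R) := by
  ext i j
  fin_cases i <;> fin_cases j <;>
    simp [mA, Matrix.mul_apply, Fin.sum_univ_succ, Matrix.one_apply] <;> ring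

theorem transpose_mD_mul (a0 a1 a2 a3 : R) :
    (mD a0 a1 a2 a3)ᵀ * mD a0 a1 a2 a3 = (a0^2+a1^2+a2^2+a3^2) • (1 : Matrix (Fin 4) (Fin 4) R) := by
  ext i j
  fin_cases i <;> fin_cases j <;>
    simp [mD, Matrix.mul_apply, Fin.sum_univ_succ, Matrix.one_apply] <;> ring

theorem key_mul (a0 a1 a2 a3 b0 b1 b2 b3 : R) :
    (mD a0 a1 a2 a3)ᵀ * (mC b0 b1 b2 b3 * ((mA a0 a1 a2 a3)ᵀ * mB b0 b1 b2 b3)) =
      mX (a0^2+a1^2-a2^2-a3^2) (2*(a1*a2-a0*a3)) (2*(a1*a3+a0*a2))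
        (b0^2+b1^2-b2^2-b3^2) (2*(b1*b2-b0*b3)) (2*(b1*b3+b0*b2)) := by
  ext i j
  simp only [Matrix.mul_apply, Matrix.transpose_apply, Fin.sum_univ_four]
  fin_cases i <;> fin_cases j <;>
    simp [mA, mB, mC, mD, mX] <;> ring

theorem four_squares (a0 a1 a2 a3 : R) :
    (a0^2+a1^2-a2^2-a3^2)^2 + (2*(a1*a2-a0*a3))^2 + (2*(a1*a3+a0*a2))^2
      = (a0^2+a1^2+a2^2+a3^2)^2 := by
  ring

end general

section domain

variable {R : Type*} [CommRing R] [IsDomain R]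

/-- The determinant of the signed part, with the block data abstracted. -/
theorem det_signed_aux (A B C D X : Matrix (Fin 4) (Fin 4) R) (α β : R) (ha : α ≠ 0)
    (hAA : Aᵀ * A = α • (1 : Matrix (Fin 4) (Fin 4) R))
    (hDD : Dᵀ * D = α • (1 : Matrix (Fin 4) (Fin 4) R))
    (hX : Dᵀ * (C * (Aᵀ * B)) = X)
    (hdX : ((α^2) • (1 : Matrix (Fin 4) (Fin 4) R) - X).det = ((α^2)^2 - α^2 * β^2)^2)
    (hdA : A.det = α^2) (hdD : D.det = α^2) :
    (fromBlocks A B C D).det = (α^2 - β^2)^2 := by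
  have h1 : fromBlocks Aᵀ 0 (-(C * Aᵀ)) (α • (1 : Matrix (Fin 4) (Fin 4) R)) * fromBlocks A B C D =
      fromBlocks (α • (1 : Matrix (Fin 4) (Fin 4) R)) (Aᵀ * B) 0 (α • D - C * (Aᵀ * B)) := by
    rw [fromBlocks_multiply]
    congr 1
    · simp [hAA]
    · simp
    · rw [neg_mul, Matrix.mul_assoc, hAA]; simp
    · rw [neg_mul, Matrix.mul_assoc]; simp [sub_eq_add_neg, add_comm]
  have h2 := congrArg Matrix.det h1
  rw [det_mul, det_fromBlocks_zero₁₂, det_fromBlocks_zero₂₁, det_transpose, det_smul, det_one,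
    Fintype.card_fin, mul_one] at h2
  have h3 : Dᵀ * (α • D - C * (Aᵀ * B)) = (α^2) • (1 : Matrix (Fin 4) (Fin 4) R) - X := by
    rw [Matrix.mul_sub, Matrix.mul_smul, hDD, smul_smul, hX, pow_two]
  have h4 := congrArg Matrix.det h3
  rw [det_mul, det_transpose, hdX, hdD] at h4
  rw [hdA] at h2
  have hα8 : α^8 ≠ 0 := pow_ne_zero _ ha
  apply mul_left_cancel₀ hα8
  calc α^8 * (fromBlocks A B C D).det = α^2 * (α^2 * α^4 * (fromBlocks A B C D).det) := by ring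
    _ = α^2 * (α^4 * (α • D - C * (Aᵀ * B)).det) := by rw [h2]
    _ = α^4 * (α^2 * (α • D - C * (Aᵀ * B)).det) := by ring
    _ = α^4 * ((α^2)^2 - α^2 * β^2)^2 := by rw [h4]
    _ = α^8 * (α^2 - β^2)^2 := by ring

/-- The determinant of the signed part. -/
theorem det_signed (a0 a1 a2 a3 b0 b1 b2 b3 : R) (ha : a0^2+a1^2+a2^2+a3^2 ≠ 0) :
    (fromBlocks (mA a0 a1 a2 a3) (mB b0 b1 b2 b3) (mC b0 b1 b2 b3) (mD a0 a1 a2 a3)).det =
      ((a0^2+a1^2+a2^2+a3^2)^2 - (b0^2+b1^2+b2^2+b3^2)^2)^2 := by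
  refine det_signed_aux _ _ _ _ _ _ _ ha (transpose_mA_mul a0 a1 a2 a3)
    (transpose_mD_mul a0 a1 a2 a3) (key_mul a0 a1 a2 a3 b0 b1 b2 b3) ?_
    (det_mA a0 a1 a2 a3) (det_mD a0 a1 a2 a3)
  rw [det_smul_sub_mX, four_squares, four_squares]

end domain

end Pool.Agent.LatinDet
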