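import Mathlib

/-!
# Irreducibility of linear and quadratic forms over `ℂ`
-/

set_option autoImplicit false

namespace Pool.Agent.LatinDet

open MvPolynomial

variable {σ : Type*}

/-- A polynomial in the span of the variables is a linear function. -/
theorem linear_of_mem_span {f : MvPolynomial σ ℂ}
    (hf : f ∈ Submodule.span ℂ (Set.range (X : σ → MvPolynomial σ ℂ))) :
    ∃ l : (σ → ℂ) →ₗ[ℂ] ℂ, ∀ x, eval x f = l x := by
  induction hf using Submodule.span_induction with
  | mem y hy =>
    obtain ⟨i, rfl⟩ := hy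
    exact ⟨LinearMap.proj i, fun x => by simp⟩
  | zero => exact ⟨0, fun x => by simp⟩
  | add a b _ _ ha hb =>
    obtain ⟨l, hl⟩ := ha
    obtain ⟨m, hm⟩ := hb
    exact ⟨l + m, fun x => by simp [hl, hm]⟩
  | smul c a _ ha =>
    obtain ⟨l, hl⟩ := ha
    exact ⟨c • l, fun x => by simp [hl, smul_eval]⟩

/-- A polynomial of total degree at most one is an affine function. -/
theorem affine_of_totalDegree_le_one {f : MvPolynomial σ ℂ} (hf : f.totalDegree ≤ 1) :
    ∃ (c : ℂ) (l : (σ → ℂ) →ₗ[ℂ] ℂ), ∀ x, eval x f = c + l x := by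
  have h1 : homogeneousComponent 1 f ∈ Submodule.span ℂ (Set.range (X : σ → MvPolynomial σ ℂ)) := by
    rw [← homogeneousSubmodule_one_eq_span_X]
    exact homogeneousComponent_isHomogeneous 1 f
  obtain ⟨l, hl⟩ := linear_of_mem_span h1
  refine ⟨coeff 0 f, l, fun x => ?_⟩
  have hsum : f = homogeneousComponent 0 f + homogeneousComponent 1 f := by
    conv_lhs => rw [← sum_homogeneousComponent f]
    have h2 : f.totalDegree = 0 ∨ f.totalDegree = 1 := by omega
    rcases h2 with h2 | h2
    · rw [h2]
      simp [homogeneousComponent_eq_zero 1 f (by omega)]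
    · rw [h2]
      simp [Finset.sum_range_succ]
  rw [← hl x]
  conv_lhs => rw [hsum]
  simp [homogeneousComponent_zero]

/-- A quadratic form of rank at least three is not a product of two affine functions. -/
theorem quad_not_product {V : Type*} [AddCommGroup V] [Module ℂ V] (q : V → ℂ)
    (v : Fin 3 → V) (hq0 : q 0 = 0) (hneg : ∀ x, q (-x) = q x)
    (hd : ∀ i, q (v i) = 1) (ho : ∀ i j, i ≠ j → q (v i + v j) = 2)
    (c d : ℂ) (l m : V →ₗ[ℂ] ℂ) (h : ∀ x, q x = (c + l x) * (d + m x)) : False := by
  have hcd : c * d = 0 := by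
    have := h 0
    simpa [hq0] using this.symm
  have hmix : ∀ x, c * m x + d * l x = 0 := by
    intro x
    have h1 := h x
    have h2 := h (-x)
    rw [hneg, h1, map_neg, map_neg] at h2
    have h3 : 2 * (c * m x + d * l x) = 0 := by linear_combination h2
    simpa using h3
  have hprod : ∀ x, q x = l x * m x := by
    intro x
    rw [h x]
    linear_combination hcd + hmix x
  have h1 : ∀ i, l (v i) * m (v i) = 1 := fun i => by rw [← hprod, hd]
  have h2 : ∀ i j, i ≠ j → l (v i) * m (v j) + l (v j) * m (v i) = 0 := by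
    intro i j hij
    have := hprod (v i + v j)
    rw [ho i j hij, map_add, map_add] at this
    linear_combination -this - h1 i - h1 j
  have a0 := h1 0
  have a1 := h1 1
  have a2 := h1 2
  have b01 := h2 0 1 (by decide)
  have b12 := h2 1 2 (by decide)
  have b02 := h2 0 2 (by decide)
  generalize l (v 0) = l0 at *
  generalize l (v 1) = l1 at *
  generalize l (v 2) = l2 at *
  generalize m (v 0) = m0 at *
  generalize m (v 1) = m1 at *
  generalize m (v 2) = m2 at *
  have c01 : (l0 * m1)^2 = -1 := by
    linear_combination (l0 * m1) * b01 - l1 * m1 * a0 - a1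
  have c12 : (l1 * m2)^2 = -1 := by
    linear_combination (l1 * m2) * b12 - l2 * m2 * a1 - a2
  have c02 : (l0 * m2)^2 = -1 := by
    linear_combination (l0 * m2) * b02 - l2 * m2 * a0 - a2
  have e : (l0 * m1) * (l1 * m2) = l0 * m2 := by
    linear_combination l0 * m2 * a1
  have e2 : (l0 * m2)^2 = 1 := by
    rw [← e, mul_pow, c01, c12]; norm_num
  rw [c02] at e2
  norm_num at e2

/-- Irreducibility criterion for quadratic forms. -/
theorem irreducible_quad (p : MvPolynomial σ ℂ) (hdeg : p.totalDegree = 2)
    (v : Fin 3 → (σ → ℂ)) (hq0 : eval 0 p = 0) (hneg : ∀ x, eval (-x) p = eval x p)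
    (hd : ∀ i, eval (v i) p = 1) (ho : ∀ i j, i ≠ j → eval (v i + v j) p = 2) :
    Irreducible p := by
  have hp0 : p ≠ 0 := by
    rintro rfl
    simp at hdeg
  constructor
  · intro H
    have := (MvPolynomial.isUnit_iff_totalDegree_of_isReduced.mp H).2
    omega
  · intro a b hab
    have ha0 : a ≠ 0 := by rintro rfl; exact hp0 (by rw [hab, zero_mul])
    have hb0 : b ≠ 0 := by rintro rfl; exact hp0 (by rw [hab, mul_zero])
    have hsum : a.totalDegree + b.totalDegree = 2 := by
      rw [← totalDegree_mul_of_isDomain ha0 hb0, ← hab, hdeg]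
    have hunit : ∀ f : MvPolynomial σ ℂ, f ≠ 0 → f.totalDegree = 0 → IsUnit f := by
      intro f hf0 hf
      rw [totalDegree_eq_zero_iff_eq_C] at hf
      rw [hf] at hf0 ⊢
      have : coeff 0 f ≠ 0 := by
        intro h
        rw [h] at hf0
        exact hf0 (by simp)
      exact (isUnit_iff_ne_zero.mpr this).map C
    by_cases h0 : a.totalDegree = 0
    · exact Or.inl (hunit a ha0 h0)
    by_cases h1 : b.totalDegree = 0
    · exact Or.inr (hunit b hb0 h1)
    exfalso
    obtain ⟨c, l, hl⟩ := affine_of_totalDegree_le_one (f := a) (by omega)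
    obtain ⟨d, m, hm⟩ := affine_of_totalDegree_le_one (f := b) (by omega)
    refine quad_not_product (fun x => eval x p) v hq0 hneg hd ho c d l m ?_
    intro x
    simp only [hab, map_mul, hl, hm]

/-- Associated polynomials over `ℂ` are proportional as functions. -/
theorem eval_of_associated {p q : MvPolynomial σ ℂ} (h : Associated p q) :
    ∃ r : ℂ, ∀ x, eval x q = r * eval x p := by
  obtain ⟨u, hu⟩ := h
  have h1 : (u : MvPolynomial σ ℂ).totalDegree = 0 :=
    (MvPolynomial.isUnit_iff_totalDegree_of_isReduced.mp u.isUnit).2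
  rw [totalDegree_eq_zero_iff_eq_C] at h1
  refine ⟨coeff 0 (u : MvPolynomial σ ℂ), fun x => ?_⟩
  rw [← hu, h1]
  simp [mul_comm]

end Pool.Agent.LatinDet
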