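import Pool.Agent.LatinDet.Square
import Pool.Agent.LatinDet.Irred

/-!
# The factorisation of the determinant of the Latin square `tab`
-/

set_option autoImplicit false
set_option linter.unusedSimpArgs false

namespace Pool.Agent.LatinDet

open MvPolynomial

/-- The ten irreducible factors: eight linear forms and two quadratic forms. -/
noncomputable def fac : Fin (8 + 2) → MvPolynomial (Fin 16) ℂ :=
  Fin.append (fun c => lin c X) ![qa X + qb X, qa X - qb X]

theorem eval_lin (c : Fin 8) (x : Fin 16 → ℂ) :
    eval x (lin c (X : Fin 16 → MvPolynomial (Fin 16) ℂ)) = lin c x := by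
  simp [lin]

theorem eval_qa (x : Fin 16 → ℂ) :
    eval x (qa (X : Fin 16 → MvPolynomial (Fin 16) ℂ)) = qa x := by
  simp [qa]

theorem eval_qb (x : Fin 16 → ℂ) :
    eval x (qb (X : Fin 16 → MvPolynomial (Fin 16) ℂ)) = qb x := by
  simp [qb]

theorem fac_left (c : Fin 8) : fac (Fin.castAdd 2 c) = lin c X := by
  simp only [fac, Fin.append_left]

theorem fac_right (d : Fin 2) :
    fac (Fin.natAdd 8 d) = (![qa X + qb X, qa X - qb X] : Fin 2 → MvPolynomial (Fin 16) ℂ) d := by
  simp only [fac, Fin.append_right]

theorem lin_single (c : Fin 8) (s : Fin 16) (t : ℂ) :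
    lin c (Pi.single s t : Fin 16 → ℂ) = (cf c s : ℂ) * t := by
  unfold lin
  rw [Finset.sum_eq_single s]
  · simp
  · intro b _ hb
    simp [hb]
  · simp

theorem cf_zero (c : Fin 8) : cf c 0 = 1 := by
  revert c; decide

theorem cf_inj : ∀ c d : Fin 8, (∀ s, cf c s = cf d s) → c = d := by
  decide

theorem isHomogeneous_lin (c : Fin 8) :
    (lin c (X : Fin 16 → MvPolynomial (Fin 16) ℂ)).IsHomogeneous 1 := by
  unfold lin
  refine IsHomogeneous.sum _ _ _ fun s _ => ?_
  have : ((cf c s : ℤ) : MvPolynomial (Fin 16) ℂ) = C ((cf c s : ℤ) : ℂ) := by simp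
  rw [this]
  exact isHomogeneous_C_mul_X _ _

theorem isHomogeneous_sq (i j : Fin 16) :
    ((X i - X j : MvPolynomial (Fin 16) ℂ)^2).IsHomogeneous 2 := by
  have := ((isHomogeneous_X ℂ i).sub (isHomogeneous_X ℂ j)).pow 2
  simpa using this

theorem isHomogeneous_qa : (qa (X : Fin 16 → MvPolynomial (Fin 16) ℂ)).IsHomogeneous 2 := by
  unfold qa
  exact (((isHomogeneous_sq _ _).add (isHomogeneous_sq _ _)).add (isHomogeneous_sq _ _)).add
    (isHomogeneous_sq _ _)

theorem isHomogeneous_qb : (qb (X : Fin 16 → MvPolynomial (Fin 16) ℂ)).IsHomogeneous 2 := by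
  unfold qb
  exact (((isHomogeneous_sq _ _).add (isHomogeneous_sq _ _)).add (isHomogeneous_sq _ _)).add
    (isHomogeneous_sq _ _)

theorem ne_zero_of_eval {p : MvPolynomial (Fin 16) ℂ} {x : Fin 16 → ℂ} (h : eval x p = 1) :
    p ≠ 0 := by
  rintro rfl
  simp at h

theorem qa_single_zero (t : ℂ) : qa (Pi.single 0 t : Fin 16 → ℂ) = t^2 := by
  simp [qa, Pi.single_apply]

theorem qb_single_zero (t : ℂ) : qb (Pi.single 0 t : Fin 16 → ℂ) = 0 := by
  simp [qb, Pi.single_apply]

theorem qa_single_four (t : ℂ) : qa (Pi.single 4 t : Fin 16 → ℂ) = 0 := by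
  simp [qa, Pi.single_apply]

theorem qb_single_four (t : ℂ) : qb (Pi.single 4 t : Fin 16 → ℂ) = t^2 := by
  simp [qb, Pi.single_apply]

theorem qa_ne_zero : qa (X : Fin 16 → MvPolynomial (Fin 16) ℂ) ≠ 0 := by
  apply ne_zero_of_eval (x := Pi.single 0 1)
  rw [eval_qa, qa_single_zero]; norm_num

theorem totalDegree_lin (c : Fin 8) :
    (lin c (X : Fin 16 → MvPolynomial (Fin 16) ℂ)).totalDegree = 1 := by
  apply (isHomogeneous_lin c).totalDegree
  apply ne_zero_of_eval (x := Pi.single 0 1)
  rw [eval_lin, lin_single, cf_zero]; norm_num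

theorem totalDegree_right (d : Fin 2) :
    ((![qa X + qb X, qa X - qb X] : Fin 2 → MvPolynomial (Fin 16) ℂ) d).totalDegree = 2 := by
  fin_cases d
  · apply (isHomogeneous_qa.add isHomogeneous_qb).totalDegree
    apply ne_zero_of_eval (x := Pi.single 0 1)
    rw [map_add, eval_qa, eval_qb, qa_single_zero, qb_single_zero]; norm_num
  · apply (isHomogeneous_qa.sub isHomogeneous_qb).totalDegree
    apply ne_zero_of_eval (x := Pi.single 0 1)
    rw [map_sub, eval_qa, eval_qb, qa_single_zero, qb_single_zero]; norm_num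

theorem irreducible_lin (c : Fin 8) :
    Irreducible (lin c (X : Fin 16 → MvPolynomial (Fin 16) ℂ)) := by
  apply irreducible_of_totalDegree_eq_one (totalDegree_lin c)
  intro r hr
  rw [isUnit_iff_ne_zero]
  rintro rfl
  have h0 : lin c (X : Fin 16 → MvPolynomial (Fin 16) ℂ) = 0 := by
    ext m
    simpa using hr m
  have := totalDegree_lin c
  rw [h0] at this
  simp at this

/-- Three test vectors. -/
def tv : Fin 3 → (Fin 16 → ℂ) :=
  ![Pi.single 0 1, Pi.single 1 1, Pi.single 2 1]

theorem irreducible_right (d : Fin 2) :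
    Irreducible ((![qa X + qb X, qa X - qb X] : Fin 2 → MvPolynomial (Fin 16) ℂ) d) := by
  apply irreducible_quad _ (totalDegree_right d) tv
  · fin_cases d <;> simp [eval_qa, eval_qb, qa, qb]
  · intro x
    fin_cases d <;> simp [eval_qa, eval_qb, qa, qb] <;> ring
  · intro i
    fin_cases d <;> fin_cases i <;> simp [eval_qa, eval_qb, qa, qb, tv, Pi.single_apply]
  · intro i j hij
    fin_cases d <;> fin_cases i <;> fin_cases j <;>
      first
        | exact absurd rfl hij
        | (simp [eval_qa, eval_qb, qa, qb, tv, Pi.single_apply]; try norm_num)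

theorem irreducible_fac (j : Fin (8 + 2)) : Irreducible (fac j) := by
  induction j using Fin.addCases with
  | left c => rw [fac_left]; exact irreducible_lin c
  | right d => rw [fac_right]; exact irreducible_right d

theorem eval_one_fac (j : Fin (8 + 2)) : eval (Pi.single 0 1) (fac j) = 1 := by
  induction j using Fin.addCases with
  | left c => rw [fac_left, eval_lin, lin_single, cf_zero]; norm_num
  | right d =>
    rw [fac_right]
    fin_cases d <;> simp [eval_qa, eval_qb, qa_single_zero, qb_single_zero]

theorem eval_right_two (d : Fin 2) :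
    eval (Pi.single 0 2) ((![qa X + qb X, qa X - qb X] : Fin 2 → MvPolynomial (Fin 16) ℂ) d)
      = 4 := by
  fin_cases d <;> simp [eval_qa, eval_qb, qa_single_zero, qb_single_zero] <;> norm_num

theorem eval_left_two (c : Fin 8) :
    eval (Pi.single 0 2) (lin c (X : Fin 16 → MvPolynomial (Fin 16) ℂ)) = 2 := by
  rw [eval_lin, lin_single, cf_zero]; norm_num

theorem not_associated_fac (i j : Fin (8 + 2)) (hij : i ≠ j) : ¬ Associated (fac i) (fac j) := by
  intro h
  obtain ⟨r, hr⟩ := eval_of_associated h
  have h1 := hr (Pi.single 0 1)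
  rw [eval_one_fac, eval_one_fac, mul_one] at h1
  subst h1
  simp only [one_mul] at hr
  apply hij
  induction i using Fin.addCases with
  | left c =>
    induction j using Fin.addCases with
    | left d =>
      congr 1
      apply cf_inj
      intro s
      have := hr (Pi.single s 1)
      rw [fac_left, fac_left, eval_lin, eval_lin, lin_single, lin_single, mul_one, mul_one] at this
      exact_mod_cast this.symm
    | right d =>
      exfalso
      have := hr (Pi.single 0 2)
      rw [fac_left, fac_right, eval_left_two, eval_right_two] at this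
      norm_num at this
  | right c =>
    induction j using Fin.addCases with
    | left d =>
      exfalso
      have := hr (Pi.single 0 2)
      rw [fac_left, fac_right, eval_left_two, eval_right_two] at this
      norm_num at this
    | right d =>
      have := hr (Pi.single 4 1)
      rw [fac_right, fac_right] at this
      fin_cases c <;> fin_cases d
      · rfl
      · exfalso
        simp [eval_qa, eval_qb, qa_single_four, qb_single_four] at this
        norm_num at this
      · exfalso
        simp [eval_qa, eval_qb, qa_single_four, qb_single_four] at this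
        norm_num at this
      · rfl

theorem prod_fac :
    ∏ j, fac j ^ (fac j).totalDegree =
      (∏ c : Fin 8, lin c (X : Fin 16 → MvPolynomial (Fin 16) ℂ)) *
        ((qa X + qb X)^2 * (qa X - qb X)^2) := by
  have hl : ∀ c : Fin 8, fac (Fin.castAdd 2 c) ^ (fac (Fin.castAdd 2 c)).totalDegree
      = lin c (X : Fin 16 → MvPolynomial (Fin 16) ℂ) := by
    intro c
    rw [fac_left, totalDegree_lin, pow_one]
  have hr : ∀ d : Fin 2, fac (Fin.natAdd 8 d) ^ (fac (Fin.natAdd 8 d)).totalDegree
      = ((![qa X + qb X, qa X - qb X] : Fin 2 → MvPolynomial (Fin 16) ℂ) d)^2 := by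
    intro d
    rw [fac_right, totalDegree_right]
  rw [Fin.prod_univ_add, Finset.prod_congr rfl fun c _ => hl c,
    Finset.prod_congr rfl fun d _ => hr d, Fin.prod_univ_two]
  rfl

theorem det_fac :
    (Matrix.of (fun i j => (X (tab i j) : MvPolynomial (Fin 16) ℂ))).det
      = C 1 * ∏ j, fac j ^ (fac j).totalDegree := by
  rw [prod_fac, C_1, one_mul, ← mul_assoc]
  exact det_tab X qa_ne_zero

/-- The quadrangle criterion fails, so `tab` is not isotopic to a group table. -/
theorem not_group (G : Type) [Group G] (a b : Fin 16 → G) (e : G → Fin 16)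
    (he : Function.Injective e) (h : ∀ i j, tab i j = e (a i * b j)) : False := by
  have q1 : a 0 * b 0 = a 1 * b 1 := he (by rw [← h, ← h]; decide)
  have q2 : a 0 * b 2 = a 1 * b 11 := he (by rw [← h, ← h]; decide)
  have q3 : a 4 * b 0 = a 5 * b 1 := he (by rw [← h, ← h]; decide)
  have q4 : a 4 * b 2 = a 5 * b 11 := by
    calc a 4 * b 2 = (a 4 * b 0) * (a 0 * b 0)⁻¹ * (a 0 * b 2) := by group
      _ = (a 5 * b 1) * (a 1 * b 1)⁻¹ * (a 1 * b 11) := by rw [q1, q2, q3]
      _ = a 5 * b 11 := by group
  have q5 : tab 4 2 = tab 5 11 := by rw [h, h, q4]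
  revert q5
  decide

end Pool.Agent.LatinDet
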