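import Pool.Agent.LatinDet.Factors

/-!
# The direct product of `tab` with a cyclic group of order `m`
-/

set_option autoImplicit false
set_option linter.unusedSimpArgs false

namespace Pool.Agent.LatinDet

open MvPolynomial Matrix

section

variable (m : ℕ) [NeZero m]

/-- The direct product of `tab` with the table of the cyclic group of order `m`. -/
def tabm (p q : Fin 16 × ZMod m) : Fin 16 × ZMod m := (tab p.1 q.1, p.2 + q.2)

theorem tabm_row (p : Fin 16 × ZMod m) : Function.Bijective (tabm m p) := by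
  have h : tabm m p = Prod.map (tab p.1) (fun b => p.2 + b) := by
    funext q
    rfl
  rw [h]
  exact (tab_bij_row p.1).prodMap (AddGroup.addLeft_bijective p.2)

theorem tabm_col (q : Fin 16 × ZMod m) : Function.Bijective (fun p => tabm m p q) := by
  have h : (fun p => tabm m p q) = Prod.map (fun i => tab i q.1) (fun a => a + q.2) := by
    funext p
    rfl
  rw [h]
  exact (tab_bij_col q.1).prodMap (AddGroup.addRight_bijective q.2)

/-- The characters of the cyclic group of order `m`. -/
noncomputable def chi (c g : ZMod m) : ℂ := ZMod.stdAddChar (c * g)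

theorem chi_zero (c : ZMod m) : chi m c 0 = 1 := by
  simp [chi]

theorem chi_add (c g h : ZMod m) : chi m c (g + h) = chi m c g * chi m c h := by
  simp [chi, mul_add, AddChar.map_add_eq_mul]

theorem chi_inj {c d : ZMod m} (h : ∀ g, chi m c g = chi m d g) : c = d := by
  have := h 1
  simp only [chi, mul_one] at this
  exact ZMod.injective_stdAddChar this

theorem sum_chi (c d : ZMod m) :
    ∑ b, chi m c (-b) * chi m d b = if c = d then (m : ℂ) else 0 := by
  have h1 : ∀ b : ZMod m, chi m c (-b) * chi m d b = ZMod.stdAddChar (b * (d - c)) := by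
    intro b
    unfold chi
    rw [← AddChar.map_add_eq_mul]
    congr 1
    ring
  rw [Finset.sum_congr rfl fun b _ => h1 b,
    AddChar.sum_mulShift (d - c) (ZMod.isPrimitive_stdAddChar m)]
  by_cases h : c = d
  · subst h
    simp [ZMod.card]
  · rw [if_neg h, if_neg (fun h' => h (sub_eq_zero.1 h').symm)]
    simp

/-- The transformed variables. -/
noncomputable def Yv (c : ZMod m) (s : Fin 16) : MvPolynomial (Fin 16 × ZMod m) ℂ :=
  ∑ g, C (chi m c g) * X (s, g)

/-- The matrix of the Fourier transform. -/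
noncomputable def FT : Matrix (Fin 16 × ZMod m) (Fin 16 × ZMod m) ℂ :=
  Matrix.of fun p q => if p.1 = q.1 then chi m p.2 q.2 else 0

/-- The same matrix with entries in the polynomial ring. -/
noncomputable def FC : Matrix (Fin 16 × ZMod m) (Fin 16 × ZMod m)
    (MvPolynomial (Fin 16 × ZMod m) ℂ) :=
  Matrix.of fun p q => C (FT m p q)

/-- The matrix of the Latin square. -/
noncomputable def MM : Matrix (Fin 16 × ZMod m) (Fin 16 × ZMod m)
    (MvPolynomial (Fin 16 × ZMod m) ℂ) :=
  Matrix.of fun p q => X (tabm m p q)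

theorem conj_eq :
    FC m * MM m * (FC m)ᵀ =
    blockDiagonal fun c => (m : MvPolynomial (Fin 16 × ZMod m) ℂ) •
      (Matrix.of fun i j => Yv m c (tab i j)) := by
  ext1 ⟨i, c⟩ ⟨j, d⟩
  have e1 : ∀ b : ZMod m, (FC m * MM m) (i, c) (j, b) =
      ∑ g, C (chi m c (g - b)) * X (tab i j, g) := by
    intro b
    rw [Matrix.mul_apply, Fintype.sum_prod_type]
    rw [Finset.sum_eq_single i]
    · rw [← Equiv.sum_comp (Equiv.addRight b)
        fun g => C (chi m c (g - b)) * (X (tab i j, g) : MvPolynomial (Fin 16 × ZMod m) ℂ)]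
      refine Finset.sum_congr rfl fun a _ => ?_
      simp [FC, MM, FT, tabm]
    · intro k _ hk
      refine Finset.sum_eq_zero fun a _ => ?_
      simp [FC, FT, hk.symm]
    · simp
  rw [Matrix.mul_apply, Fintype.sum_prod_type, Finset.sum_eq_single j]
  · simp only [e1]
    rw [blockDiagonal_apply]
    have e2 : ∀ b : ZMod m, (∑ g, C (chi m c (g - b)) * X (tab i j, g)) *
        (FC m)ᵀ (j, b) (j, d) =
        ∑ g, C (chi m c g) * X (tab i j, g) * C (chi m c (-b) * chi m d b) := by
      intro b
      rw [Finset.sum_mul]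
      refine Finset.sum_congr rfl fun g _ => ?_
      have : chi m c (g - b) = chi m c g * chi m c (-b) := by
        rw [← chi_add, sub_eq_add_neg]
      simp only [Matrix.transpose_apply, FC, FT, Matrix.of_apply, if_true, this,
        C_mul]
      ring
    rw [Finset.sum_congr rfl fun b _ => e2 b, Finset.sum_comm]
    have e3 : ∀ g : ZMod m, ∑ b, C (chi m c g) * X (tab i j, g) * C (chi m c (-b) * chi m d b) =
        C (chi m c g) * (X (tab i j, g) : MvPolynomial (Fin 16 × ZMod m) ℂ) *
          C (if c = d then (m : ℂ) else 0) := by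
      intro g
      rw [← Finset.mul_sum, ← map_sum, sum_chi]
    rw [Finset.sum_congr rfl fun g _ => e3 g, ← Finset.sum_mul]
    by_cases h : c = d
    · simp [h, Yv, mul_comm]
    · simp [h]
  · intro k _ hk
    refine Finset.sum_eq_zero fun a _ => ?_
    simp [FC, FT, hk.symm]
  · simp

theorem det_FC : (FC m).det = C (FT m).det := by
  have : FC m = (C : ℂ →+* MvPolynomial (Fin 16 × ZMod m) ℂ).mapMatrix (FT m) := by
    ext p q
    rfl
  rw [this, ← RingHom.map_det]

/-- The eight linear factors belonging to the character `c`. -/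
noncomputable def linm (j : Fin 8) (c : ZMod m) : MvPolynomial (Fin 16 × ZMod m) ℂ :=
  lin j (Yv m c)

/-- The two quadratic factors belonging to the character `c`. -/
noncomputable def quadm (d : Fin 2) (c : ZMod m) : MvPolynomial (Fin 16 × ZMod m) ℂ :=
  (![qa (Yv m c) + qb (Yv m c), qa (Yv m c) - qb (Yv m c)] :
    Fin 2 → MvPolynomial (Fin 16 × ZMod m) ℂ) d

/-- The values of the transformed variables. -/
noncomputable def yv (c : ZMod m) (x : Fin 16 × ZMod m → ℂ) (s : Fin 16) : ℂ :=
  ∑ g, chi m c g * x (s, g)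

theorem eval_Yv (c : ZMod m) (x : Fin 16 × ZMod m → ℂ) (s : Fin 16) :
    eval x (Yv m c s) = yv m c x s := by
  simp [Yv, yv]

theorem eval_linm (j : Fin 8) (c : ZMod m) (x : Fin 16 × ZMod m → ℂ) :
    eval x (linm m j c) = lin j (yv m c x) := by
  simp [linm, lin, eval_Yv]

theorem eval_qam (c : ZMod m) (x : Fin 16 × ZMod m → ℂ) :
    eval x (qa (Yv m c)) = qa (yv m c x) := by
  simp [qa, eval_Yv]

theorem eval_qbm (c : ZMod m) (x : Fin 16 × ZMod m → ℂ) :
    eval x (qb (Yv m c)) = qb (yv m c x) := by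
  simp [qb, eval_Yv]

theorem eval_quadm (d : Fin 2) (c : ZMod m) (x : Fin 16 × ZMod m → ℂ) :
    eval x (quadm m d c) =
      (![qa (yv m c x) + qb (yv m c x), qa (yv m c x) - qb (yv m c x)] : Fin 2 → ℂ) d := by
  fin_cases d <;> simp [quadm, eval_qam, eval_qbm]

/-- A test vector: the symbol `(s, g)` has the value `t`. -/
theorem yv_single (c : ZMod m) (s : Fin 16) (g : ZMod m) (t : ℂ) :
    yv m c (Pi.single (s, g) t) = Pi.single s (chi m c g * t) := by
  funext s'
  unfold yv
  by_cases h : s' = s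
  · subst h
    rw [Finset.sum_eq_single g]
    · simp
    · intro b _ hb
      simp [Pi.single_apply, hb]
    · simp
  · rw [Pi.single_eq_of_ne h]
    refine Finset.sum_eq_zero fun b _ => ?_
    simp [Pi.single_apply, h]

theorem yv_add (c : ZMod m) (x y : Fin 16 × ZMod m → ℂ) : yv m c (x + y) = yv m c x + yv m c y := by
  funext s
  simp [yv, mul_add, Finset.sum_add_distrib]

theorem yv_neg (c : ZMod m) (x : Fin 16 × ZMod m → ℂ) : yv m c (-x) = -yv m c x := by
  funext s
  simp [yv]

theorem yv_zero (c : ZMod m) : yv m c 0 = 0 := by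
  funext s
  simp [yv]

theorem isHomogeneous_Yv (c : ZMod m) (s : Fin 16) : (Yv m c s).IsHomogeneous 1 := by
  unfold Yv
  exact IsHomogeneous.sum _ _ _ fun g _ => isHomogeneous_C_mul_X _ _

theorem isHomogeneous_linm (j : Fin 8) (c : ZMod m) : (linm m j c).IsHomogeneous 1 := by
  unfold linm lin
  refine IsHomogeneous.sum _ _ _ fun s _ => ?_
  have : ((cf j s : ℤ) : MvPolynomial (Fin 16 × ZMod m) ℂ) = C ((cf j s : ℤ) : ℂ) := by simp
  rw [this]
  simpa using (isHomogeneous_C (Fin 16 × ZMod m) ((cf j s : ℤ) : ℂ)).mul (isHomogeneous_Yv m c s)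

theorem isHomogeneous_sqm (c : ZMod m) (i j : Fin 16) :
    ((Yv m c i - Yv m c j)^2).IsHomogeneous 2 := by
  have := ((isHomogeneous_Yv m c i).sub (isHomogeneous_Yv m c j)).pow 2
  simpa using this

theorem isHomogeneous_qam (c : ZMod m) : (qa (Yv m c)).IsHomogeneous 2 := by
  unfold qa
  exact (((isHomogeneous_sqm m c _ _).add (isHomogeneous_sqm m c _ _)).add
    (isHomogeneous_sqm m c _ _)).add (isHomogeneous_sqm m c _ _)

theorem isHomogeneous_qbm (c : ZMod m) : (qb (Yv m c)).IsHomogeneous 2 := by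
  unfold qb
  exact (((isHomogeneous_sqm m c _ _).add (isHomogeneous_sqm m c _ _)).add
    (isHomogeneous_sqm m c _ _)).add (isHomogeneous_sqm m c _ _)

theorem isHomogeneous_quadm (d : Fin 2) (c : ZMod m) : (quadm m d c).IsHomogeneous 2 := by
  fin_cases d
  · exact (isHomogeneous_qam m c).add (isHomogeneous_qbm m c)
  · exact (isHomogeneous_qam m c).sub (isHomogeneous_qbm m c)

theorem ne_zero_of_evalm {p : MvPolynomial (Fin 16 × ZMod m) ℂ} {x : Fin 16 × ZMod m → ℂ}
    (h : eval x p = 1) : p ≠ 0 := by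
  rintro rfl
  simp at h

/-- The value at the vector with `x(0,0) = t`, `x(0,g) = u`. -/
theorem eval_linm_two (j : Fin 8) (c g : ZMod m) (t u : ℂ) :
    eval (Pi.single (0, 0) t + Pi.single (0, g) u) (linm m j c) = t + chi m c g * u := by
  rw [eval_linm, yv_add, yv_single, yv_single, chi_zero, one_mul, ← Pi.single_add, lin_single,
    cf_zero]
  norm_num

theorem eval_quadm_two (d : Fin 2) (c g : ZMod m) (t u : ℂ) :
    eval (Pi.single (0, 0) t + Pi.single (0, g) u) (quadm m d c) = (t + chi m c g * u)^2 := by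
  rw [eval_quadm, yv_add, yv_single, yv_single, chi_zero, one_mul, ← Pi.single_add,
    qa_single_zero, qb_single_zero]
  fin_cases d <;> simp

theorem eval_linm_one (j : Fin 8) (c : ZMod m) (t : ℂ) :
    eval (Pi.single (0, 0) t) (linm m j c) = t := by
  have := eval_linm_two m j c 0 t 0
  simpa using this

theorem eval_quadm_one (d : Fin 2) (c : ZMod m) (t : ℂ) :
    eval (Pi.single (0, 0) t) (quadm m d c) = t^2 := by
  have := eval_quadm_two m d c 0 t 0
  simpa using this

theorem linm_ne_zero (j : Fin 8) (c : ZMod m) : linm m j c ≠ 0 :=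
  ne_zero_of_evalm m (x := Pi.single (0, 0) 1) (eval_linm_one m j c 1)

theorem quadm_ne_zero (d : Fin 2) (c : ZMod m) : quadm m d c ≠ 0 :=
  ne_zero_of_evalm m (x := Pi.single (0, 0) 1) (by rw [eval_quadm_one]; norm_num)

theorem qam_ne_zero (c : ZMod m) : qa (Yv m c) ≠ 0 := by
  apply ne_zero_of_evalm m (x := Pi.single (0, 0) 1)
  rw [eval_qam, yv_single, chi_zero, qa_single_zero]
  norm_num

theorem totalDegree_linm (j : Fin 8) (c : ZMod m) : (linm m j c).totalDegree = 1 :=
  (isHomogeneous_linm m j c).totalDegree (linm_ne_zero m j c)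

theorem totalDegree_quadm (d : Fin 2) (c : ZMod m) : (quadm m d c).totalDegree = 2 :=
  (isHomogeneous_quadm m d c).totalDegree (quadm_ne_zero m d c)

theorem irreducible_linm (j : Fin 8) (c : ZMod m) : Irreducible (linm m j c) := by
  apply irreducible_of_totalDegree_eq_one (totalDegree_linm m j c)
  intro r hr
  rw [isUnit_iff_ne_zero]
  rintro rfl
  have h0 : linm m j c = 0 := by
    ext k
    simpa using hr k
  exact linm_ne_zero m j c h0

theorem irreducible_quadm (d : Fin 2) (c : ZMod m) : Irreducible (quadm m d c) := by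
  apply irreducible_quad _ (totalDegree_quadm m d c)
    (![Pi.single (0, 0) 1, Pi.single (1, 0) 1, Pi.single (2, 0) 1])
  · rw [eval_quadm, yv_zero]
    fin_cases d <;> simp [qa, qb]
  · intro x
    rw [eval_quadm, eval_quadm, yv_neg]
    fin_cases d <;> simp [qa, qb] <;> ring
  · intro i
    rw [eval_quadm]
    fin_cases d <;> fin_cases i <;> simp [yv_single, chi_zero, qa, qb, Pi.single_apply]
  · intro i j hij
    rw [eval_quadm, yv_add]
    fin_cases d <;> fin_cases i <;> fin_cases j <;>
      first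
        | exact absurd rfl hij
        | (simp [yv_single, chi_zero, qa, qb, Pi.single_apply]; try norm_num)

/-- The factorisation of the determinant. -/
theorem det_MM : ∃ k : ℂ, k ≠ 0 ∧
    (MM m).det = C k * ((∏ p : Fin 8 × ZMod m, linm m p.1 p.2) *
      ∏ p : Fin 2 × ZMod m, quadm m p.1 p.2 ^ 2) := by
  have h1 := congrArg Matrix.det (conj_eq m)
  rw [det_mul, det_mul, det_transpose, det_blockDiagonal, det_FC] at h1
  have h2 : ∀ c : ZMod m, ((m : MvPolynomial (Fin 16 × ZMod m) ℂ) •
      (Matrix.of fun i j => Yv m c (tab i j))).det =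
      C ((m : ℂ)^16) * ((∏ j : Fin 8, linm m j c) * ∏ d : Fin 2, quadm m d c ^ 2) := by
    intro c
    rw [det_smul, det_tab (Yv m c) (qam_ne_zero m c), Fin.prod_univ_two]
    simp only [Fintype.card_fin, quadm, linm, C_pow, map_natCast, Matrix.cons_val_zero,
      Matrix.cons_val_one]
    ring
  rw [Finset.prod_congr rfl fun c _ => h2 c] at h1
  rw [Finset.prod_mul_distrib, Finset.prod_mul_distrib, Finset.prod_const, ← C_pow] at h1
  set A := (FT m).det with hA
  set B : ℂ := ((m : ℂ)^16)^(Finset.univ : Finset (ZMod m)).card with hB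
  have hB0 : B ≠ 0 := pow_ne_zero _ (pow_ne_zero _ (Nat.cast_ne_zero.2 (NeZero.ne m)))
  set Q : MvPolynomial (Fin 16 × ZMod m) ℂ := ((∏ c : ZMod m, ∏ j : Fin 8, linm m j c) *
    ∏ c : ZMod m, ∏ d : Fin 2, quadm m d c ^ 2) with hQ
  have hQ0 : Q ≠ 0 := by
    refine mul_ne_zero ?_ ?_
    · exact Finset.prod_ne_zero_iff.2 fun c _ => Finset.prod_ne_zero_iff.2 fun j _ =>
        linm_ne_zero m j c
    · exact Finset.prod_ne_zero_iff.2 fun c _ => Finset.prod_ne_zero_iff.2 fun d _ =>
        pow_ne_zero _ (quadm_ne_zero m d c)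
  have hA0 : A ≠ 0 := by
    intro h
    rw [h, C_0, zero_mul, zero_mul] at h1
    have : C B * Q = 0 := h1.symm
    rcases mul_eq_zero.1 this with h | h
    · exact hB0 (C_eq_zero.1 h)
    · exact hQ0 h
  refine ⟨B / A^2, div_ne_zero hB0 (pow_ne_zero _ hA0), ?_⟩
  have h3 : (MM m).det * C (A^2) = C B * Q := by
    rw [← h1, C_pow]
    ring
  have h4 : Q = (∏ p : Fin 8 × ZMod m, linm m p.1 p.2) *
      ∏ p : Fin 2 × ZMod m, quadm m p.1 p.2 ^ 2 := by
    rw [hQ, Fintype.prod_prod_type_right, Fintype.prod_prod_type_right]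
  rw [← h4]
  have h5 : (C (A^2) : MvPolynomial (Fin 16 × ZMod m) ℂ) ≠ 0 := by
    rw [Ne, C_eq_zero]
    exact pow_ne_zero _ hA0
  apply mul_right_cancel₀ h5
  rw [h3]
  have h6 : B = B / A^2 * A^2 := by
    field_simp
  conv_lhs => rw [h6, C_mul]
  ring

theorem not_associated_linm {j j' : Fin 8} {c c' : ZMod m} (h : (j, c) ≠ (j', c')) :
    ¬ Associated (linm m j c) (linm m j' c') := by
  intro ha
  obtain ⟨r, hr⟩ := eval_of_associated ha
  have h1 := hr (Pi.single (0, 0) 1)
  rw [eval_linm_one, eval_linm_one, mul_one] at h1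
  subst h1
  simp only [one_mul] at hr
  have h2 : c = c' := by
    apply chi_inj m
    intro g
    have := hr (Pi.single (0, 0) 0 + Pi.single (0, g) 1)
    rw [eval_linm_two, eval_linm_two] at this
    simpa using this.symm
  subst h2
  apply h
  rw [Prod.mk.injEq]
  refine ⟨cf_inj _ _ fun s => ?_, rfl⟩
  have := hr (Pi.single (s, 0) 1)
  rw [eval_linm, eval_linm, yv_single, chi_zero, mul_one, lin_single, lin_single, mul_one,
    mul_one] at this
  exact_mod_cast this.symm

theorem not_associated_linm_quadm (j : Fin 8) (d : Fin 2) (c c' : ZMod m) :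
    ¬ Associated (linm m j c) (quadm m d c') := by
  intro ha
  obtain ⟨r, hr⟩ := eval_of_associated ha
  have h1 := hr (Pi.single (0, 0) 1)
  have h2 := hr (Pi.single (0, 0) 2)
  rw [eval_linm_one, eval_quadm_one] at h1 h2
  norm_num at h1 h2
  rw [← h1] at h2
  norm_num at h2

theorem not_associated_quadm {d d' : Fin 2} {c c' : ZMod m} (h : (d, c) ≠ (d', c')) :
    ¬ Associated (quadm m d c) (quadm m d' c') := by
  intro ha
  obtain ⟨r, hr⟩ := eval_of_associated ha
  have h1 := hr (Pi.single (0, 0) 1)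
  rw [eval_quadm_one, eval_quadm_one, one_pow, mul_one] at h1
  subst h1
  simp only [one_mul] at hr
  have h2 : c = c' := by
    apply chi_inj m
    intro g
    have e1 := hr (Pi.single (0, 0) 1 + Pi.single (0, g) 1)
    have e2 := hr (Pi.single (0, 0) 1 + Pi.single (0, g) (-1))
    rw [eval_quadm_two, eval_quadm_two] at e1 e2
    linear_combination (e2 - e1) / 4
  subst h2
  apply h
  rw [Prod.mk.injEq]
  refine ⟨?_, rfl⟩
  have := hr (Pi.single (4, 0) 1)
  rw [eval_quadm, eval_quadm, yv_single, chi_zero, mul_one] at this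
  fin_cases d <;> fin_cases d'
  · rfl
  · exfalso
    simp [qa_single_four, qb_single_four] at this
    norm_num at this
  · exfalso
    simp [qa_single_four, qb_single_four] at this
    norm_num at this
  · rfl

end

/-- The quadrangle criterion fails for `tab`. -/
theorem not_quad {G : Type*} [Group G] (a b : Fin 16 → G)
    (h : ∀ i j k l, a i * b j = a k * b l ↔ tab i j = tab k l) : False := by
  have q1 : a 0 * b 0 = a 1 * b 1 := (h _ _ _ _).2 (by decide)
  have q2 : a 0 * b 2 = a 1 * b 11 := (h _ _ _ _).2 (by decide)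
  have q3 : a 4 * b 0 = a 5 * b 1 := (h _ _ _ _).2 (by decide)
  have q4 : a 4 * b 2 = a 5 * b 11 := by
    calc a 4 * b 2 = (a 4 * b 0) * (a 0 * b 0)⁻¹ * (a 0 * b 2) := by group
      _ = (a 5 * b 1) * (a 1 * b 1)⁻¹ * (a 1 * b 11) := by rw [q1, q2, q3]
      _ = a 5 * b 11 := by group
  have q5 : tab 4 2 = tab 5 11 := (h _ _ _ _).1 q4
  revert q5
  decide

theorem tabm_not_group (m : ℕ) [NeZero m] {G : Type*} [Group G] (a b : Fin 16 × ZMod m → G)
    (h : ∀ p q r s, a p * b q = a r * b s ↔ tabm m p q = tabm m r s) : False := by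
  refine not_quad (fun i => a (i, 0)) (fun j => b (j, 0)) fun i j k l => ?_
  rw [h]
  simp [tabm]

end Pool.Agent.LatinDet
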