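import Pool.Agent.LatinDet.Dets

/-!
# The Latin square of order 16 and its determinant
-/

set_option autoImplicit false

namespace Pool.Agent.LatinDet

open Matrix

/-- The Latin square of order `16`. -/
def tab : Fin 16 → Fin 16 → Fin 16 :=
  ![![0, 1, 2, 3, 4, 5, 6, 7, 8, 9, 10, 11, 12, 13, 14, 15],
    ![9, 0, 3, 10, 13, 4, 15, 6, 1, 8, 11, 2, 5, 12, 7, 14],
    ![10, 11, 0, 1, 14, 7, 4, 13, 2, 3, 8, 9, 6, 15, 12, 5],
    ![11, 2, 9, 0, 15, 14, 5, 4, 3, 10, 1, 8, 7, 6, 13, 12],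
    ![12, 5, 14, 15, 0, 9, 10, 11, 4, 13, 6, 7, 8, 1, 2, 3],
    ![13, 12, 7, 14, 1, 0, 11, 2, 5, 4, 15, 6, 9, 8, 3, 10],
    ![14, 7, 4, 5, 2, 3, 0, 9, 6, 15, 12, 13, 10, 11, 8, 1],
    ![15, 14, 13, 4, 3, 10, 1, 0, 7, 6, 5, 12, 11, 2, 9, 8],
    ![8, 9, 10, 11, 12, 13, 14, 15, 0, 1, 2, 3, 4, 5, 6, 7],
    ![1, 8, 11, 2, 5, 12, 7, 14, 9, 0, 3, 10, 13, 4, 15, 6],
    ![2, 3, 8, 9, 6, 15, 12, 5, 10, 11, 0, 1, 14, 7, 4, 13],
    ![3, 10, 1, 8, 7, 6, 13, 12, 11, 2, 9, 0, 15, 14, 5, 4],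
    ![4, 13, 6, 7, 8, 1, 2, 3, 12, 5, 14, 15, 0, 9, 10, 11],
    ![5, 4, 15, 6, 9, 8, 3, 10, 13, 12, 7, 14, 1, 0, 11, 2],
    ![6, 15, 12, 13, 10, 11, 8, 1, 14, 7, 4, 5, 2, 3, 0, 9],
    ![7, 6, 5, 12, 11, 2, 9, 8, 15, 14, 13, 4, 3, 10, 1, 0]]

/-- The reindexing of `Fin 16` used for the block decomposition. -/
def eI : (Fin 4 ⊕ Fin 4) ⊕ (Fin 4 ⊕ Fin 4) ≃ Fin 16 :=
  ((Equiv.sumCongr finSumFinEquiv finSumFinEquiv).trans finSumFinEquiv :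
    (Fin 4 ⊕ Fin 4) ⊕ (Fin 4 ⊕ Fin 4) ≃ Fin (4 + 4 + (4 + 4)))

theorem tab_inr_inl : ∀ i j : Fin 4 ⊕ Fin 4,
    tab (eI (Sum.inr i)) (eI (Sum.inl j)) = tab (eI (Sum.inl i)) (eI (Sum.inr j)) := by
  decide

theorem tab_inr_inr : ∀ i j : Fin 4 ⊕ Fin 4,
    tab (eI (Sum.inr i)) (eI (Sum.inr j)) = tab (eI (Sum.inl i)) (eI (Sum.inl j)) := by
  decide

theorem tab_bij_row : ∀ i, Function.Bijective (tab i) := by
  decide

theorem tab_bij_col : ∀ j, Function.Bijective (fun i => tab i j) := by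
  decide

section

variable {R : Type*} [CommRing R]

/-- The symmetric block `x_{i xor j}` of size four. -/
def mS (u0 u1 u2 u3 : R) : Matrix (Fin 4) (Fin 4) R :=
  !![u0, u1, u2, u3; u1, u0, u3, u2; u2, u3, u0, u1; u3, u2, u1, u0]

theorem mS_add (u0 u1 u2 u3 v0 v1 v2 v3 : R) :
    mS u0 u1 u2 u3 + mS v0 v1 v2 v3 = mS (u0+v0) (u1+v1) (u2+v2) (u3+v3) := by
  ext i j
  fin_cases i <;> fin_cases j <;> simp [mS]

theorem mS_sub (u0 u1 u2 u3 v0 v1 v2 v3 : R) :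
    mS u0 u1 u2 u3 - mS v0 v1 v2 v3 = mS (u0-v0) (u1-v1) (u2-v2) (u3-v3) := by
  ext i j
  fin_cases i <;> fin_cases j <;> simp [mS]

theorem det_mS (u0 u1 u2 u3 : R) :
    (mS u0 u1 u2 u3).det =
      (u0+u1+u2+u3) * (u0-u1+u2-u3) * (u0+u1-u2-u3) * (u0-u1-u2+u3) := by
  simp [mS, Matrix.det_succ_row_zero, Fin.sum_univ_succ, Fin.succAbove]
  ring

end

/-- The eight real characters of the elementary abelian group of order `8`, as functions of the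
symbol (they depend on the symbol modulo `8`). -/
def cf : Fin 8 → Fin 16 → ℤ :=
  ![![1, 1, 1, 1, 1, 1, 1, 1, 1, 1, 1, 1, 1, 1, 1, 1],
    ![1, -1, 1, -1, 1, -1, 1, -1, 1, -1, 1, -1, 1, -1, 1, -1],
    ![1, 1, -1, -1, 1, 1, -1, -1, 1, 1, -1, -1, 1, 1, -1, -1],
    ![1, -1, -1, 1, 1, -1, -1, 1, 1, -1, -1, 1, 1, -1, -1, 1],
    ![1, 1, 1, 1, -1, -1, -1, -1, 1, 1, 1, 1, -1, -1, -1, -1],
    ![1, -1, 1, -1, -1, 1, -1, 1, 1, -1, 1, -1, -1, 1, -1, 1],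
    ![1, 1, -1, -1, -1, -1, 1, 1, 1, 1, -1, -1, -1, -1, 1, 1],
    ![1, -1, -1, 1, -1, 1, 1, -1, 1, -1, -1, 1, -1, 1, 1, -1]]

section

variable {R : Type*} [CommRing R]

/-- The linear factors. -/
def lin (c : Fin 8) (x : Fin 16 → R) : R := ∑ s : Fin 16, (cf c s : R) * x s

/-- The first sum of four squares. -/
def qa (x : Fin 16 → R) : R :=
  (x 0 - x 8)^2 + (x 1 - x 9)^2 + (x 2 - x 10)^2 + (x 3 - x 11)^2

/-- The second sum of four squares. -/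
def qb (x : Fin 16 → R) : R :=
  (x 4 - x 12)^2 + (x 5 - x 13)^2 + (x 6 - x 14)^2 + (x 7 - x 15)^2

theorem addPart (x : Fin 16 → R) :
    (Matrix.of fun i j : Fin 4 ⊕ Fin 4 =>
      x (tab (eI (Sum.inl i)) (eI (Sum.inl j))) + x (tab (eI (Sum.inl i)) (eI (Sum.inr j)))) =
    fromBlocks (mS (x 0 + x 8) (x 1 + x 9) (x 2 + x 10) (x 3 + x 11))
      (mS (x 4 + x 12) (x 5 + x 13) (x 6 + x 14) (x 7 + x 15))
      (mS (x 4 + x 12) (x 5 + x 13) (x 6 + x 14) (x 7 + x 15))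
      (mS (x 0 + x 8) (x 1 + x 9) (x 2 + x 10) (x 3 + x 11)) := by
  ext i j
  rcases i with i | i <;> rcases j with j | j <;> fin_cases i <;> fin_cases j <;>
    first
      | exact rfl
      | exact add_comm _ _

theorem subPart (x : Fin 16 → R) :
    (Matrix.of fun i j : Fin 4 ⊕ Fin 4 =>
      x (tab (eI (Sum.inl i)) (eI (Sum.inl j))) - x (tab (eI (Sum.inl i)) (eI (Sum.inr j)))) =
    fromBlocks (mA (x 0 - x 8) (x 1 - x 9) (x 2 - x 10) (x 3 - x 11))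
      (mB (x 4 - x 12) (x 5 - x 13) (x 6 - x 14) (x 7 - x 15))
      (mC (x 4 - x 12) (x 5 - x 13) (x 6 - x 14) (x 7 - x 15))
      (mD (x 0 - x 8) (x 1 - x 9) (x 2 - x 10) (x 3 - x 11)) := by
  ext i j
  rcases i with i | i <;> rcases j with j | j <;> fin_cases i <;> fin_cases j <;>
    first
      | exact rfl
      | exact (neg_sub _ _).symm

theorem lin_0 (x : Fin 16 → R) :
    (x 0 + x 8 + (x 4 + x 12)) + (x 1 + x 9 + (x 5 + x 13)) + (x 2 + x 10 + (x 6 + x 14)) + (x 3 + x 11 + (x 7 + x 15))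
      = lin 0 x := by
  simp [lin, cf, Fin.sum_univ_succ]
  ring

theorem lin_1 (x : Fin 16 → R) :
    (x 0 + x 8 + (x 4 + x 12)) - (x 1 + x 9 + (x 5 + x 13)) + (x 2 + x 10 + (x 6 + x 14)) - (x 3 + x 11 + (x 7 + x 15))
      = lin 1 x := by
  simp [lin, cf, Fin.sum_univ_succ]
  ring

theorem lin_2 (x : Fin 16 → R) :
    (x 0 + x 8 + (x 4 + x 12)) + (x 1 + x 9 + (x 5 + x 13)) - (x 2 + x 10 + (x 6 + x 14)) - (x 3 + x 11 + (x 7 + x 15))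
      = lin 2 x := by
  simp [lin, cf, Fin.sum_univ_succ]
  ring

theorem lin_3 (x : Fin 16 → R) :
    (x 0 + x 8 + (x 4 + x 12)) - (x 1 + x 9 + (x 5 + x 13)) - (x 2 + x 10 + (x 6 + x 14)) + (x 3 + x 11 + (x 7 + x 15))
      = lin 3 x := by
  simp [lin, cf, Fin.sum_univ_succ]
  ring

theorem lin_4 (x : Fin 16 → R) :
    (x 0 + x 8 - (x 4 + x 12)) + (x 1 + x 9 - (x 5 + x 13)) + (x 2 + x 10 - (x 6 + x 14)) + (x 3 + x 11 - (x 7 + x 15))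
      = lin 4 x := by
  simp [lin, cf, Fin.sum_univ_succ]
  ring

theorem lin_5 (x : Fin 16 → R) :
    (x 0 + x 8 - (x 4 + x 12)) - (x 1 + x 9 - (x 5 + x 13)) + (x 2 + x 10 - (x 6 + x 14)) - (x 3 + x 11 - (x 7 + x 15))
      = lin 5 x := by
  simp [lin, cf, Fin.sum_univ_succ]
  ring

theorem lin_6 (x : Fin 16 → R) :
    (x 0 + x 8 - (x 4 + x 12)) + (x 1 + x 9 - (x 5 + x 13)) - (x 2 + x 10 - (x 6 + x 14)) - (x 3 + x 11 - (x 7 + x 15))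
      = lin 6 x := by
  simp [lin, cf, Fin.sum_univ_succ]
  ring

theorem lin_7 (x : Fin 16 → R) :
    (x 0 + x 8 - (x 4 + x 12)) - (x 1 + x 9 - (x 5 + x 13)) - (x 2 + x 10 - (x 6 + x 14)) + (x 3 + x 11 - (x 7 + x 15))
      = lin 7 x := by
  simp [lin, cf, Fin.sum_univ_succ]
  ring

theorem submatrix_tab (x : Fin 16 → R) :
    (Matrix.of fun i j => x (tab i j)).submatrix eI eI =
      fromBlocks
        (Matrix.of fun i j : Fin 4 ⊕ Fin 4 => x (tab (eI (Sum.inl i)) (eI (Sum.inl j))))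
        (Matrix.of fun i j : Fin 4 ⊕ Fin 4 => x (tab (eI (Sum.inl i)) (eI (Sum.inr j))))
        (Matrix.of fun i j : Fin 4 ⊕ Fin 4 => x (tab (eI (Sum.inl i)) (eI (Sum.inr j))))
        (Matrix.of fun i j : Fin 4 ⊕ Fin 4 => x (tab (eI (Sum.inl i)) (eI (Sum.inl j)))) := by
  ext i j
  rcases i with i | i <;> rcases j with j | j
  · rfl
  · rfl
  · exact congrArg x (tab_inr_inl i j)
  · exact congrArg x (tab_inr_inr i j)

/-- The determinant of the Latin square `tab`. -/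
theorem det_tab [IsDomain R] (x : Fin 16 → R) (h : qa x ≠ 0) :
    (Matrix.of fun i j => x (tab i j)).det =
      (∏ c : Fin 8, lin c x) * (qa x + qb x)^2 * (qa x - qb x)^2 := by
  rw [← Matrix.det_submatrix_equiv_self eI, submatrix_tab, det_blocks]
  have hS := addPart x
  have hN := subPart x
  have hS' : (Matrix.of fun i j : Fin 4 ⊕ Fin 4 => x (tab (eI (Sum.inl i)) (eI (Sum.inl j)))) +
      (Matrix.of fun i j : Fin 4 ⊕ Fin 4 => x (tab (eI (Sum.inl i)) (eI (Sum.inr j)))) = _ := hS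
  have hN' : (Matrix.of fun i j : Fin 4 ⊕ Fin 4 => x (tab (eI (Sum.inl i)) (eI (Sum.inl j)))) -
      (Matrix.of fun i j : Fin 4 ⊕ Fin 4 => x (tab (eI (Sum.inl i)) (eI (Sum.inr j)))) = _ := hN
  rw [hS', hN', det_blocks, mS_add, mS_sub, det_mS, det_mS, det_signed _ _ _ _ _ _ _ _ h]
  rw [lin_0, lin_1, lin_2, lin_3, lin_4, lin_5, lin_6, lin_7, Fin.prod_univ_eight]
  change _ * _ * _ * _ * (_ * _ * _ * _) * ((qa x)^2 - (qb x)^2)^2 = _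
  ring

end

end Pool.Agent.LatinDet
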